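import Pool.Agent.MWA.Stmts

/-!
Block MWA (MP_23468a_al), row OLD: the one letter facts for `x t x² ≈ x² t x²`.
-/

set_option autoImplicit false

namespace Pool.Agent.MWA.H46

open Pool.Agent.Helper14_MV Pool.Agent.Helper2_MV Pool.Agent.MVO Pool.Agent.MWL Pool.Agent.MWS
open Pool.Agent.MWA

/-- the reversed vector -/
def rv (k : ℕ) (a : ℕ → ℕ) : ℕ → ℕ := fun j => a (k - j)

/-- `R'` is the reversed congruence of `R` -/
def IsRev (R R' : FC) : Prop := ∀ (k : ℕ) (a b : ℕ → ℕ), R'.R k a b ↔ R.R k (rv k a) (rv k b)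

theorem rv_rv (k : ℕ) (a : ℕ → ℕ) (j : ℕ) (hj : j ≤ k) : rv k (rv k a) j = a j := by
  unfold rv
  rw [Nat.sub_sub_self hj]

theorem isRev_iff {R R' : FC} (h : IsRev R R') (k : ℕ) (a b : ℕ → ℕ) :
    R.R k a b ↔ R'.R k (rv k a) (rv k b) := by
  rw [h k (rv k a) (rv k b)]
  constructor
  · exact fun hr => R.ext (fun j hj => (rv_rv k a j hj).symm) (fun j hj => (rv_rv k b j hj).symm) hr
  · exact fun hr => R.ext (fun j hj => rv_rv k a j hj) (fun j hj => rv_rv k b j hj) hr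

theorem deg_rv (k : ℕ) (a : ℕ → ℕ) : deg k (rv k a) = deg k a := by
  unfold deg rv
  have h := Finset.sum_range_reflect (fun j => a j) (k + 1)
  rw [← h]
  apply Finset.sum_congr rfl
  intro j _
  have : k + 1 - 1 - j = k - j := by omega
  rw [this]

theorem isRev_nd {R R' : FC} (h : IsRev R R') (hnd : ND R) : ND R' := by
  intro k a b hab hd j hj
  have h1 := hnd k (rv k a) (rv k b) ((h k a b).1 hab) (by rw [deg_rv]; exact hd) (k - j)
    (Nat.sub_le k j)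
  unfold rv at h1
  rwa [Nat.sub_sub_self hj] at h1

theorem isRev_ab {R R' : FC} (h : IsRev R R') (k : ℕ) (a : ℕ → ℕ) (i : ℕ) (hi : i ≤ k) :
    MWL.Ab 1 R k a i ↔ MWL.Ab 1 R' k (rv k a) (k - i) := by
  unfold MWL.Ab
  rw [isRev_iff h]
  have e : ∀ j ≤ k, rv k (ad 1 a i) j = ad 1 (rv k a) (k - i) j := by
    intro j hj
    unfold rv ad
    by_cases h1 : k - j = i
    · have h2 : j = k - i := by omega
      rw [if_pos h1, if_pos h2]
    · have h2 : ¬ j = k - i := by omega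
      rw [if_neg h1, if_neg h2]
  constructor
  · exact fun hr => R'.ext (fun _ _ => rfl) e hr
  · exact fun hr => R'.ext (fun _ _ => rfl) (fun j hj => (e j hj).symm) hr

theorem isRev_lr {β θ : FIC} (h1 : ApI β) (h2 : Rd β) (hle : β ≤ θ) {R' : FC}
    (h : IsRev (FC.ofFIC θ) R') : LR 1 R' := by
  refine ⟨le_refl 1, ?_, ?_⟩
  · rw [h]
    exact hle _ _ h1.ap
  · rw [h]
    exact hle _ _ h2

theorem old (key : KeyStmt) (law : LawStmt) (rev : RevStmt) (ndn : NdnStmt) : OldStmt := by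
  intro β hA hR
  have hrev : ∀ θ : FIC, ∃ R' : FC, IsRev (FC.ofFIC θ) R' := fun θ => rev (FC.ofFIC θ)
  refine ⟨?_, ?_⟩
  · intro θ hle hnc k a b hab i hi hn
    obtain ⟨R', h⟩ := hrev θ
    have h1 := key 1 R' (isRev_lr hA hR hle h) (isRev_nd h (ndn β θ hA hle hnc)) k (rv k a) (rv k b)
      ((isRev_iff h k a b).1 hab) (k - i) (Nat.sub_le k i)
      (fun hc => hn ((isRev_ab h k a i hi).2 hc))
    unfold rv at h1
    rwa [Nat.sub_sub_self hi] at h1
  · intro ρ σ τ υ hρ hσ hτ hυ nρ nσ nτ h1 h2 k a b hab hJ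
    obtain ⟨R, hR1⟩ := hrev ρ
    obtain ⟨S, hS1⟩ := hrev σ
    obtain ⟨T, hT1⟩ := hrev τ
    obtain ⟨U, hU1⟩ := hrev υ
    have h3 := law 1 R S T U (isRev_lr hA hR hρ hR1) (isRev_lr hA hR hσ hS1)
      (isRev_lr hA hR hτ hT1) (isRev_lr hA hR hυ hU1) (isRev_nd hR1 (ndn β ρ hA hρ nρ))
      (isRev_nd hS1 (ndn β σ hA hσ nσ)) (isRev_nd hT1 (ndn β τ hA hτ nτ))
      (fun k a b hr ht => (hU1 k a b).2 (h1 k _ _ ((hR1 k a b).1 hr) ((hT1 k a b).1 ht)))
      (fun k a b hr ht => (hU1 k a b).2 (h2 k _ _ ((hS1 k a b).1 hr) ((hT1 k a b).1 ht)))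
      k (rv k a) (rv k b) ((isRev_iff hT1 k a b).1 hab) ?_
    · exact (isRev_iff hU1 k a b).2 h3
    · have h4 : ∀ c d, ((FC.ofFIC ρ).R k c d ∨ (FC.ofFIC σ).R k c d) →
          (R.R k (rv k c) (rv k d) ∨ S.R k (rv k c) (rv k d)) := by
        intro c d hcd
        rcases hcd with hc | hc
        · exact Or.inl ((isRev_iff hR1 k c d).1 hc)
        · exact Or.inr ((isRev_iff hS1 k c d).1 hc)
      unfold Jn at hJ ⊢
      exact Relation.ReflTransGen.lift (rv k) h4 _ _ hJ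

end Pool.Agent.MWA.H46
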